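import Pool.Agent.Helper72.LSr.CEDef

/-!
# LR-S3b: (CL), from `mindeg_delete` and `clique_ge_EE`
-/

namespace Pool.Agent.Helper52.LSr

open Finset
open scoped Classical
open Pool.Agent.Helper72.LSr

variable {V : Type} {j : ℕ} {G : SimpleGraph V} {S : Finset V} {k A B : ℕ}

/-- statement of `mindeg_delete` -/
def MinDegDelete (V : Type) : Prop :=
  ∀ (k A B : ℕ), 1 ≤ k → ∀ (G : SimpleGraph V) (b : ℕ) (N : Finset V),
    (N.card : ℤ) = EE k A B + b →
    2 * es k A B 3 + 2 * b * (EE k A B - k) + b * (b + 1) ≤ 2 * K G N 2 →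
    ∃ N' : Finset V, N' ⊆ N ∧ (N'.card : ℤ) = EE k A B ∧ es k A B 3 ≤ K G N' 2

/-- statement of `clique_ge_EE` -/
def CliqueGeEE (V : Type) (j : ℕ) : Prop :=
  ∀ (k A B : ℕ), 1 ≤ k → 1 ≤ A + B → (∀ n m, TH V j n m) →
    ∀ (G : SimpleGraph V) (N : Finset V), (N.card : ℤ) = EE k A B →
    es k A B 3 ≤ K G N 2 → es k A B (j + 2) ≤ K G N (j + 1)

theorem cl_aux (hmd : MinDegDelete V) (hce : CliqueGeEE V j)
    (h : CE V j G S k A B) {w x : V} (hw : w ∈ S) (hx : x ∈ nb G S w)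
    (hmax : ∀ y ∈ nb G S w, cv k A B G S w x ≤ cv k A B G S w y)
    (hc : cv k A B G S w x ≤ 0) :
    -2 * cv k A B G S w x * (Dv k A B G S w - 1) + cv k A B G S w x * (cv k A B G S w x + 1)
      < 2 * Yv k A B G S w := by
  by_contra hcon
  push Not at hcon
  obtain ⟨b, hb⟩ : ∃ b : ℕ, cv k A B G S w x = -(b : ℤ) :=
    ⟨(-cv k A B G S w x).toNat, by rw [Int.toNat_of_nonneg (by linarith)]; ring⟩
  obtain ⟨hxS, hwx⟩ := (mem_nb G).1 hx
  set N : Finset V := nb G S w ∩ nb G S x with hN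
  have hNcard : (N.card : ℤ) = EE k A B + b := by
    have : cv k A B G S w x = EE k A B - (N.card : ℤ) := rfl
    linarith
  -- the set `Z_x`
  have hQsub : nb G S w \ nb G S x ⊆ nb G S w := sdiff_subset
  have hLQ : nb G S w \ (nb G S w \ nb G S x) = N := by
    rw [sdiff_sdiff_right_self, hN]; rfl
  have hQcard : ((nb G S w \ nb G S x).card : ℤ) = (nb G S w).card - N.card := by
    have h1 := card_sdiff_add_card_inter (nb G S w) (nb G S x)
    have h2 : ((nb G S w \ nb G S x).card : ℤ) + N.card = (nb G S w).card := by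
      rw [hN]; exact_mod_cast h1
    linarith
  have h2 := K_two_sdiff G (nb G S w) (nb G S w \ nb G S x) hQsub
  rw [hLQ] at h2
  have h3 : ∑ z ∈ nb G S w \ nb G S x, ((nb G (nb G S w) z).card : ℤ)
      ≤ ((nb G S w \ nb G S x).card : ℤ) * (EE k A B + b) := by
    rw [← nsmul_eq_mul]
    apply sum_le_card_nsmul
    intro z hz
    have hz' : z ∈ nb G S w := hQsub hz
    have h4 := hmax z hz'
    rw [nb_nb]
    have h5 : cv k A B G S w z = EE k A B - ((nb G S w ∩ nb G S z).card : ℤ) := rfl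
    linarith
  have h4 := K_nonneg G (nb G S w \ nb G S x) 2
  have hDdef : Dv k A B G S w = EE k A B + k + 1 - (nb G S w).card := rfl
  have hYdef : Yv k A B G S w = es k A B 3 + EE k A B * ((nb G S w).card - EE k A B)
      - K G (nb G S w) 2 := rfl
  rw [hb] at hcon
  rw [hQcard, hNcard] at h3
  have hLc : ((nb G S w).card : ℤ) = EE k A B + k + 1 - Dv k A B G S w := by linarith
  rw [hLc] at h3 hYdef
  have hKL : K G (nb G S w) 2 = es k A B 3 + EE k A B * (EE k A B + k + 1 - Dv k A B G S w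
      - EE k A B) - Yv k A B G S w := by linarith
  rw [hKL] at h2
  have he : 2 * es k A B 3 + 2 * b * (EE k A B - k) + b * (b + 1) ≤ 2 * K G N 2 := by
    nlinarith
  obtain ⟨N', hN', hN'c, hN'e⟩ := hmd k A B h.hk G b N hNcard he
  have h6 := hce k A B h.hk h.hAB h.th0 G N' hN'c hN'e
  have h7 := K_mono G hN' (j + 1)
  have h8 := h.hM0 w hw x hxS hwx
  rw [← hN] at h8
  linarith

theorem cl_a_aux (hmd : MinDegDelete V) (hce : CliqueGeEE V j)
    (h : CE V j G S k A B) {w : V} (hw : w ∈ S) (hD : 1 ≤ Dv k A B G S w)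
    (hY : Yv k A B G S w ≤ Dv k A B G S w - 1) : ∀ x ∈ nb G S w, 0 ≤ cv k A B G S w x := by
  intro x0 hx0
  obtain ⟨x, hx, hmin⟩ := exists_min_image (nb G S w) (fun y => cv k A B G S w y) ⟨x0, hx0⟩
  refine le_trans ?_ (hmin x0 hx0)
  by_contra hlt
  push Not at hlt
  have h1 := cl_aux hmd hce h hw hx hmin hlt.le
  have hlt' : cv k A B G S w x ≤ -1 := by linarith
  nlinarith [mul_nonneg (by linarith : 0 ≤ -1 - cv k A B G S w x)
    (by linarith : 0 ≤ Dv k A B G S w - 1), mul_nonneg (by linarith : 0 ≤ -1 - cv k A B G S w x)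
    (by linarith : 0 ≤ - cv k A B G S w x)]

theorem cl_b_aux (hmd : MinDegDelete V) (hce : CliqueGeEE V j)
    (h : CE V j G S k A B) {w : V} (hw : w ∈ S) (hD : 1 ≤ Dv k A B G S w)
    (hY : Yv k A B G S w ≤ 0) : ∀ x ∈ nb G S w, 1 ≤ cv k A B G S w x := by
  intro x0 hx0
  obtain ⟨x, hx, hmin⟩ := exists_min_image (nb G S w) (fun y => cv k A B G S w y) ⟨x0, hx0⟩
  refine le_trans ?_ (hmin x0 hx0)
  by_contra hlt
  push Not at hlt
  have hle : cv k A B G S w x ≤ 0 := by linarith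
  have h1 := cl_aux hmd hce h hw hx hmin hle
  have h2 : 0 ≤ cv k A B G S w x * (cv k A B G S w x + 1) := by
    rcases eq_or_lt_of_le hle with h0 | h0
    · rw [h0]; norm_num
    · exact mul_nonneg_of_nonpos_of_nonpos hle (by linarith)
  have h3 := mul_nonneg (by linarith : 0 ≤ - cv k A B G S w x)
    (by linarith : 0 ≤ Dv k A B G S w - 1)
  linarith

theorem cl_c_aux (hmd : MinDegDelete V) (hce : CliqueGeEE V j)
    (h : CE V j G S k A B) {w : V} (hw : w ∈ S) (t : ℤ) (_ht : 0 ≤ t)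
    (hD : Dv k A B G S w = -t) (hY : Yv k A B G S w ≤ -(t + 1) ^ 2) :
    ∀ x ∈ nb G S w, 1 ≤ cv k A B G S w x := by
  intro x0 hx0
  obtain ⟨x, hx, hmin⟩ := exists_min_image (nb G S w) (fun y => cv k A B G S w y) ⟨x0, hx0⟩
  refine le_trans ?_ (hmin x0 hx0)
  by_contra hlt
  push Not at hlt
  have hle : cv k A B G S w x ≤ 0 := by linarith
  have h1 := cl_aux hmd hce h hw hx hmin hle
  rw [hD] at h1
  set c := cv k A B G S w x with hcdef
  have hsq : ∀ u : ℤ, 0 ≤ u * (u - 1) := by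
    intro u
    rcases le_or_gt u 0 with h0 | h0
    · exact mul_nonneg_of_nonpos_of_nonpos h0 (by linarith)
    · exact mul_nonneg h0.le (by linarith)
  have h2 := hsq (-c - (t + 1))
  have h3 := hsq (t + 1)
  nlinarith

end Pool.Agent.Helper52.LSr
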